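import Pool.Agent.Helper22.G4.St.C0

/-! # G4-C9: edges of the gadget quadrangles -/

namespace Pool.Agent.Helper77.G4

open Pool.Agent.Helper22.G4

section

variable {I : NF}

private theorem mem_eq : I.data.mem = Fc.mem := rfl

private theorem symm {a b : Vx} (h : I.data.padj a b) : I.data.padj b a := by
  refine ⟨h.1.symm, fun t ht h1 h2 => ?_⟩
  obtain ⟨f, hf, ha, hb, hn⟩ := h.2 t ht h2 h1
  exact ⟨f, hf, hb, ha, hn⟩

/-- the edge from `p g` to `q g` -/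
theorem padj_pq (hI : I.OK) {X Y g : ℕ}
    (hT : Fc.T0 I.M I.N g ∈ I.data.fcodes)
    (h0 : Fc.G I.N X Y g (0, true) ∈ I.data.fcodes)
    (hN : Fc.G I.N X Y g (I.N, true) ∈ I.data.fcodes) :
    I.data.padj (Vx.p g) (Vx.q g) := by
  have hsz := NF.size hI
  refine ⟨by simp [Vx.p, Vx.q], fun t ht h1 h2 => ?_⟩
  rcases NF.verts_cases ht with rfl | rfl | ⟨a, i, j, hu, rfl⟩ | ⟨g', hg', rfl⟩ | ⟨g', hg', rfl⟩
  · refine ⟨_, h0, (Fc.mem_p _ _).2 (by simp [Fc.G]), (Fc.mem_q _ _).2 (by simp [Fc.G]), ?_⟩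
    rw [mem_eq]
    rw [Fc.mem_b1]
    simp [Fc.G]
    omega
  · refine ⟨_, hN, (Fc.mem_p _ _).2 (by simp [Fc.G]), (Fc.mem_q _ _).2 (by simp [Fc.G]), ?_⟩
    rw [mem_eq]
    rw [Fc.mem_b2]
    simp [Fc.G]
    omega
  · refine ⟨_, hT, (Fc.mem_p _ _).2 (by simp [Fc.T0]), (Fc.mem_q _ _).2 (by simp [Fc.T0]), ?_⟩
    have hl := (NF.pu_lt hI hu).2.2
    rw [mem_eq]
    rw [Fc.mem_u]
    simp only [Fc.T0]
    omega
  · refine ⟨_, hT, (Fc.mem_p _ _).2 (by simp [Fc.T0]), (Fc.mem_q _ _).2 (by simp [Fc.T0]), ?_⟩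
    rw [mem_eq]
    rw [Fc.mem_p]
    simp only [Fc.T0]
    intro h
    apply h1
    have : g = g' := by omega
    rw [this]
  · refine ⟨_, hT, (Fc.mem_p _ _).2 (by simp [Fc.T0]), (Fc.mem_q _ _).2 (by simp [Fc.T0]), ?_⟩
    rw [mem_eq]
    rw [Fc.mem_q]
    simp only [Fc.T0]
    intro h
    apply h2
    have : g = g' := by omega
    rw [this]

/-- the edge from `p g` to the vertex of page `X` -/
theorem padj_pX (hI : I.OK) {X Y g s₁ s₂ i j : ℕ}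
    (hX : Fc.GX I.N X g ∈ I.data.fcodes)
    (h1 : Fc.G I.N X Y g (s₁, true) ∈ I.data.fcodes)
    (h2 : Fc.G I.N X Y g (s₂, true) ∈ I.data.fcodes)
    (hs : s₁ < s₂) (hN : s₂ ≤ I.N) (hu : I.PU X i j) (hi : i ≤ s₁) (hj : s₂ ≤ j) :
    I.data.padj (Vx.p g) (Vx.u X i j) := by
  have hsz := NF.size hI
  have e1 : Fc.mem (Fc.G I.N X Y g (s₁, true)) (Vx.p g) = true :=
    (Fc.mem_p _ _).2 (by simp [Fc.G])
  have e2 : Fc.mem (Fc.G I.N X Y g (s₂, true)) (Vx.p g) = true :=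
    (Fc.mem_p _ _).2 (by simp [Fc.G])
  have e1' : Fc.mem (Fc.G I.N X Y g (s₁, true)) (Vx.u X i j) = true :=
    (Fc.mem_u _ _ _ _).2 (by simp only [Fc.G, true_or, or_true, true_and]; omega)
  have e2' : Fc.mem (Fc.G I.N X Y g (s₂, true)) (Vx.u X i j) = true :=
    (Fc.mem_u _ _ _ _).2 (by simp only [Fc.G, true_or, or_true, true_and]; omega)
  have e3 : Fc.mem (Fc.GX I.N X g) (Vx.p g) = true := (Fc.mem_p _ _).2 (by simp [Fc.GX])
  have hjN := (NF.pu_lt hI hu).2.1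
  have e3' : Fc.mem (Fc.GX I.N X g) (Vx.u X i j) = true :=
    (Fc.mem_u _ _ _ _).2 (by simp only [Fc.GX, true_or, or_true, true_and]; omega)
  refine ⟨by simp [Vx.p, Vx.u], fun t ht n1 n2 => ?_⟩
  rcases NF.verts_cases ht with rfl | rfl | ⟨a, k, l, hv, rfl⟩ | ⟨g', hg', rfl⟩ | ⟨g', hg', rfl⟩
  · refine ⟨_, h1, e1, e1', ?_⟩
    rw [mem_eq]
    rw [Fc.mem_b1]
    simp [Fc.G]
    omega
  · refine ⟨_, h2, e2, e2', ?_⟩
    rw [mem_eq]
    rw [Fc.mem_b2]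
    simp [Fc.G]
    omega
  · by_cases hax : a = X
    · subst hax
      by_contra hcon
      push Not at hcon
      have c1 := hcon _ h1 e1 e1'
      have c2 := hcon _ h2 e2 e2'
      have c1' := (Fc.mem_u _ _ _ _).1 c1
      have c2' := (Fc.mem_u _ _ _ _).1 c2
      simp only [Fc.G] at c1' c2'
      have hq := NF.pu_unique hI hu hv (by omega) (by omega)
      apply n2
      rw [hq.1, hq.2]
    · refine ⟨_, hX, e3, e3', ?_⟩
      rw [mem_eq]
      rw [Fc.mem_u]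
      simp only [Fc.GX]
      omega
  · refine ⟨_, hX, e3, e3', ?_⟩
    rw [mem_eq]
    rw [Fc.mem_p]
    simp only [Fc.GX]
    intro h
    apply n1
    have : g = g' := by omega
    rw [this]
  · refine ⟨_, hX, e3, e3', ?_⟩
    rw [mem_eq]
    rw [Fc.mem_q]
    simp only [Fc.GX]
    omega

/-- the edge from `q g` to the vertex of page `Y` -/
theorem padj_qY (hI : I.OK) {X Y g s₁ s₂ i j : ℕ}
    (hY : Fc.GY I.N Y g ∈ I.data.fcodes)
    (h1 : Fc.G I.N X Y g (s₁, true) ∈ I.data.fcodes)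
    (h2 : Fc.G I.N X Y g (s₂, true) ∈ I.data.fcodes)
    (hs : s₁ < s₂) (hN : s₂ ≤ I.N) (hu : I.PU Y i j) (hi : i ≤ s₁) (hj : s₂ ≤ j) :
    I.data.padj (Vx.q g) (Vx.u Y i j) := by
  have hsz := NF.size hI
  have e1 : Fc.mem (Fc.G I.N X Y g (s₁, true)) (Vx.q g) = true :=
    (Fc.mem_q _ _).2 (by simp [Fc.G])
  have e2 : Fc.mem (Fc.G I.N X Y g (s₂, true)) (Vx.q g) = true :=
    (Fc.mem_q _ _).2 (by simp [Fc.G])
  have e1' : Fc.mem (Fc.G I.N X Y g (s₁, true)) (Vx.u Y i j) = true :=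
    (Fc.mem_u _ _ _ _).2 (by simp only [Fc.G, true_or, or_true, true_and]; omega)
  have e2' : Fc.mem (Fc.G I.N X Y g (s₂, true)) (Vx.u Y i j) = true :=
    (Fc.mem_u _ _ _ _).2 (by simp only [Fc.G, true_or, or_true, true_and]; omega)
  have e3 : Fc.mem (Fc.GY I.N Y g) (Vx.q g) = true := (Fc.mem_q _ _).2 (by simp [Fc.GY])
  have hjN := (NF.pu_lt hI hu).2.1
  have e3' : Fc.mem (Fc.GY I.N Y g) (Vx.u Y i j) = true :=
    (Fc.mem_u _ _ _ _).2 (by simp only [Fc.GY, true_or, or_true, true_and]; omega)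
  refine ⟨by simp [Vx.q, Vx.u], fun t ht n1 n2 => ?_⟩
  rcases NF.verts_cases ht with rfl | rfl | ⟨a, k, l, hv, rfl⟩ | ⟨g', hg', rfl⟩ | ⟨g', hg', rfl⟩
  · refine ⟨_, h1, e1, e1', ?_⟩
    rw [mem_eq]
    rw [Fc.mem_b1]
    simp [Fc.G]
    omega
  · refine ⟨_, h2, e2, e2', ?_⟩
    rw [mem_eq]
    rw [Fc.mem_b2]
    simp [Fc.G]
    omega
  · by_cases hax : a = Y
    · subst hax
      by_contra hcon
      push Not at hcon
      have c1 := hcon _ h1 e1 e1'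
      have c2 := hcon _ h2 e2 e2'
      have c1' := (Fc.mem_u _ _ _ _).1 c1
      have c2' := (Fc.mem_u _ _ _ _).1 c2
      simp only [Fc.G] at c1' c2'
      have hq := NF.pu_unique hI hu hv (by omega) (by omega)
      apply n2
      rw [hq.1, hq.2]
    · refine ⟨_, hY, e3, e3', ?_⟩
      rw [mem_eq]
      rw [Fc.mem_u]
      simp only [Fc.GY]
      omega
  · refine ⟨_, hY, e3, e3', ?_⟩
    rw [mem_eq]
    rw [Fc.mem_p]
    simp only [Fc.GY]
    omega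
  · refine ⟨_, hY, e3, e3', ?_⟩
    rw [mem_eq]
    rw [Fc.mem_q]
    simp only [Fc.GY]
    intro h
    apply n1
    have : g = g' := by omega
    rw [this]

/-- the edge between the vertices of the pages `X` and `Y` -/
theorem padj_XY (hI : I.OK) {X Y g s₁ s₂ i j k l m : ℕ}
    (h1 : Fc.G I.N X Y g (s₁, true) ∈ I.data.fcodes)
    (h2 : Fc.G I.N X Y g (s₂, true) ∈ I.data.fcodes)
    (hF : Fc.F I.N s₁ m ∈ I.data.fcodes) (hm : (X = m ∧ Y = m + 1) ∨ (Y = m ∧ X = m + 1))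
    (hs : s₁ < s₂) (hN : s₂ ≤ I.N) (hu : I.PU X i j) (hi : i ≤ s₁) (hj : s₂ ≤ j)
    (hv : I.PU Y k l) (hk : k ≤ s₁) (hl : s₂ ≤ l) :
    I.data.padj (Vx.u X i j) (Vx.u Y k l) := by
  have hsz := NF.size hI
  have e1 : Fc.mem (Fc.G I.N X Y g (s₁, true)) (Vx.u X i j) = true :=
    (Fc.mem_u _ _ _ _).2 (by simp only [Fc.G, true_or, or_true, true_and]; omega)
  have e2 : Fc.mem (Fc.G I.N X Y g (s₂, true)) (Vx.u X i j) = true :=
    (Fc.mem_u _ _ _ _).2 (by simp only [Fc.G, true_or, or_true, true_and]; omega)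
  have e1' : Fc.mem (Fc.G I.N X Y g (s₁, true)) (Vx.u Y k l) = true :=
    (Fc.mem_u _ _ _ _).2 (by simp only [Fc.G, true_or, or_true, true_and]; omega)
  have e2' : Fc.mem (Fc.G I.N X Y g (s₂, true)) (Vx.u Y k l) = true :=
    (Fc.mem_u _ _ _ _).2 (by simp only [Fc.G, true_or, or_true, true_and]; omega)
  have e3 : Fc.mem (Fc.F I.N s₁ m) (Vx.u X i j) = true :=
    (Fc.mem_u _ _ _ _).2 (by simp only [Fc.F, true_or, or_true, true_and]; omega)
  have e3' : Fc.mem (Fc.F I.N s₁ m) (Vx.u Y k l) = true :=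
    (Fc.mem_u _ _ _ _).2 (by simp only [Fc.F, true_or, or_true, true_and]; omega)
  refine ⟨?_, fun t ht n1 n2 => ?_⟩
  · intro h
    have : X = Y := by simpa [Vx.u] using congrArg (fun v : Vx => v.2.1) h
    omega
  rcases NF.verts_cases ht with rfl | rfl | ⟨a, k', l', hw, rfl⟩ | ⟨g', hg', rfl⟩ | ⟨g', hg', rfl⟩
  · refine ⟨_, h1, e1, e1', ?_⟩
    rw [mem_eq]
    rw [Fc.mem_b1]
    simp [Fc.G]
    omega
  · refine ⟨_, h2, e2, e2', ?_⟩
    rw [mem_eq]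
    rw [Fc.mem_b2]
    simp [Fc.G]
    omega
  · by_contra hcon
    push Not at hcon
    have c1 := hcon _ h1 e1 e1'
    have c2 := hcon _ h2 e2 e2'
    have c1' := (Fc.mem_u _ _ _ _).1 c1
    have c2' := (Fc.mem_u _ _ _ _).1 c2
    simp only [Fc.G] at c1' c2'
    rcases (by omega : a = X ∨ a = Y) with rfl | rfl
    · have hq := NF.pu_unique hI hu hw (by omega) (by omega)
      apply n1
      rw [hq.1, hq.2]
    · have hq := NF.pu_unique hI hv hw (by omega) (by omega)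
      apply n2
      rw [hq.1, hq.2]
  · refine ⟨_, hF, e3, e3', ?_⟩
    rw [mem_eq]
    rw [Fc.mem_p]
    simp only [Fc.F]
    omega
  · refine ⟨_, hF, e3, e3', ?_⟩
    rw [mem_eq]
    rw [Fc.mem_q]
    simp only [Fc.F]
    omega

/-- all four edges of a gadget quadrangle -/
theorem padj_quad (hI : I.OK) {X Y g s₁ s₂ i j k l m : ℕ}
    (hT : Fc.T0 I.M I.N g ∈ I.data.fcodes)
    (hX : Fc.GX I.N X g ∈ I.data.fcodes)
    (hY : Fc.GY I.N Y g ∈ I.data.fcodes)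
    (h0 : Fc.G I.N X Y g (0, true) ∈ I.data.fcodes)
    (hNN : Fc.G I.N X Y g (I.N, true) ∈ I.data.fcodes)
    (h1 : Fc.G I.N X Y g (s₁, true) ∈ I.data.fcodes)
    (h2 : Fc.G I.N X Y g (s₂, true) ∈ I.data.fcodes)
    (hm : (X = m ∧ Y = m + 1) ∨ (Y = m ∧ X = m + 1)) (hm1 : 1 ≤ m) (hm2 : m + 1 ≤ I.M)
    (hs : s₁ < s₂) (hN : s₂ ≤ I.N) (hu : I.PU X i j) (hi : i ≤ s₁) (hj : s₂ ≤ j)
    (hv : I.PU Y k l) (hk : k ≤ s₁) (hl : s₂ ≤ l) :
    (I.data.padj (Vx.p g) (Vx.q g) ∧ I.data.padj (Vx.q g) (Vx.p g)) ∧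
    (I.data.padj (Vx.p g) (Vx.u X i j) ∧ I.data.padj (Vx.u X i j) (Vx.p g)) ∧
    (I.data.padj (Vx.q g) (Vx.u Y k l) ∧ I.data.padj (Vx.u Y k l) (Vx.q g)) ∧
    (I.data.padj (Vx.u X i j) (Vx.u Y k l) ∧ I.data.padj (Vx.u Y k l) (Vx.u X i j)) := by
  have hF : Fc.F I.N s₁ m ∈ I.data.fcodes :=
    NF.mem_fcodes.2 (Or.inr (Or.inl ⟨m, s₁, hm1, hm2, by omega, rfl⟩))
  have a1 := padj_pq hI hT h0 hNN
  have a2 := padj_pX hI hX h1 h2 hs hN hu hi hj
  have a3 := padj_qY hI hY h1 h2 hs hN hv hk hl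
  have a4 := padj_XY hI h1 h2 hF hm hs hN hu hi hj hv hk hl
  exact ⟨⟨a1, symm a1⟩, ⟨a2, symm a2⟩, ⟨a3, symm a3⟩, ⟨a4, symm a4⟩⟩

end

/-- G4-C9 (edges of the gadget quadrangles). -/
theorem NF.edge_gadgets {I : NF} (hI : I.OK) : ∀ d ∈ I.opds,
    ∀ R ∈ (OpD.flats I.M I.N d).drop 10, ∀ e ∈ cycPairs R.1, I.data.padj e.1 e.2 := by
  intro d hd
  obtain ⟨hM, hy, hyz, hzi, hiw, hwv, hvx, hxN, -⟩ := NF.opd_ok hI hd
  have hfac : ∀ f ∈ OpD.facets I.M I.N d, f ∈ I.data.fcodes := fun f hf =>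
    NF.mem_fcodes.2 (Or.inr (Or.inr ⟨d, hd, hf⟩))
  have hT0 : Fc.T0 I.M I.N d.g0 ∈ I.data.fcodes := hfac _ (by simp [OpD.facets])
  have hT1 : Fc.T0 I.M I.N d.g1 ∈ I.data.fcodes := hfac _ (by simp [OpD.facets])
  have hT2 : Fc.T0 I.M I.N d.g2 ∈ I.data.fcodes := hfac _ (by simp [OpD.facets])
  have hX0 : Fc.GX I.N d.pb d.g0 ∈ I.data.fcodes := hfac _ (by simp [OpD.facets])
  have hX1 : Fc.GX I.N d.pb d.g1 ∈ I.data.fcodes := hfac _ (by simp [OpD.facets])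
  have hX2 : Fc.GX I.N d.pc d.g2 ∈ I.data.fcodes := hfac _ (by simp [OpD.facets])
  have hY0 : Fc.GY I.N d.pa d.g0 ∈ I.data.fcodes := hfac _ (by simp [OpD.facets])
  have hY1 : Fc.GY I.N d.pc d.g1 ∈ I.data.fcodes := hfac _ (by simp [OpD.facets])
  have hY2 : Fc.GY I.N d.pd d.g2 ∈ I.data.fcodes := hfac _ (by simp [OpD.facets])
  have hG0 : ∀ s ∈ [0, d.y, d.i, d.x, I.N], Fc.G I.N d.pb d.pa d.g0 (s, true) ∈ I.data.fcodes := by
    intro s hs
    apply hfac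
    simp only [List.mem_cons, List.not_mem_nil, or_false] at hs
    rcases hs with rfl | rfl | rfl | rfl | rfl <;> simp [OpD.facets]
  have hG1 : ∀ s ∈ [0, d.y, d.i, d.x, I.N], Fc.G I.N d.pb d.pc d.g1 (s, true) ∈ I.data.fcodes := by
    intro s hs
    apply hfac
    simp only [List.mem_cons, List.not_mem_nil, or_false] at hs
    rcases hs with rfl | rfl | rfl | rfl | rfl <;> simp [OpD.facets]
  have hG2 : ∀ s ∈ [0, d.y, d.v, I.N], Fc.G I.N d.pc d.pd d.g2 (s, true) ∈ I.data.fcodes := by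
    intro s hs
    apply hfac
    simp only [List.mem_cons, List.not_mem_nil, or_false] at hs
    rcases hs with rfl | rfl | rfl | rfl <;> simp [OpD.facets]
  have hPU : ∀ a i j, Vx.u a i j ∈ OpD.verts I.N d → I.PU a i j := fun a i j h =>
    NF.mem_verts.2 (Or.inr (Or.inr (Or.inr ⟨d, hd, h⟩)))
  have ua1 : I.PU d.pa 0 d.z := hPU _ _ _ (by simp [OpD.verts])
  have ua2 : I.PU d.pa d.z d.x := hPU _ _ _ (by simp [OpD.verts])
  have ub1 : I.PU d.pb 0 d.y := hPU _ _ _ (by simp [OpD.verts])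
  have ub2 : I.PU d.pb d.y d.i := hPU _ _ _ (by simp [OpD.verts])
  have ub3 : I.PU d.pb d.i d.x := hPU _ _ _ (by simp [OpD.verts])
  have ub4 : I.PU d.pb d.x I.N := hPU _ _ _ (by simp [OpD.verts])
  have uc1 : I.PU d.pc 0 d.y := hPU _ _ _ (by simp [OpD.verts])
  have uc2 : I.PU d.pc d.y d.v := hPU _ _ _ (by simp [OpD.verts])
  have uc3 : I.PU d.pc d.v I.N := hPU _ _ _ (by simp [OpD.verts])
  have ud1 : I.PU d.pd 0 d.w := hPU _ _ _ (by simp [OpD.verts])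
  have ud2 : I.PU d.pd d.w I.N := hPU _ _ _ (by simp [OpD.verts])
  have m0 : (d.pb = d.pa ∧ d.pa = d.pa + 1) ∨ (d.pa = d.pa ∧ d.pb = d.pa + 1) :=
    Or.inr ⟨rfl, rfl⟩
  have m1 : (d.pb = d.pb ∧ d.pc = d.pb + 1) ∨ (d.pc = d.pb ∧ d.pb = d.pb + 1) :=
    Or.inl ⟨rfl, rfl⟩
  have m2 : (d.pc = d.pc ∧ d.pd = d.pc + 1) ∨ (d.pd = d.pc ∧ d.pc = d.pc + 1) :=
    Or.inl ⟨rfl, rfl⟩
  have la : 1 ≤ d.pa := by simp only [OpD.pa]; omega
  have la' : d.pa + 1 ≤ I.M := by simp only [OpD.pa]; omega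
  have lb : 1 ≤ d.pb := by simp only [OpD.pb]; omega
  have lb' : d.pb + 1 ≤ I.M := by simp only [OpD.pb]; omega
  have lc : 1 ≤ d.pc := by simp only [OpD.pc]; omega
  have lc' : d.pc + 1 ≤ I.M := by simp only [OpD.pc]; omega
  -- the seven quadrangles
  have q1 := padj_quad hI hT0 hX0 hY0 (hG0 0 (by simp)) (hG0 I.N (by simp)) (hG0 0 (by simp))
    (hG0 d.y (by simp)) m0 la la' (by omega) (by omega) ub1 (by omega) (by omega) ua1 (by omega)
    (by omega)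
  have q2 := padj_quad hI hT0 hX0 hY0 (hG0 0 (by simp)) (hG0 I.N (by simp)) (hG0 d.i (by simp))
    (hG0 d.x (by simp)) m0 la la' (by omega) (by omega) ub3 (by omega) (by omega) ua2 (by omega)
    (by omega)
  have q3 := padj_quad hI hT1 hX1 hY1 (hG1 0 (by simp)) (hG1 I.N (by simp)) (hG1 0 (by simp))
    (hG1 d.y (by simp)) m1 lb lb' (by omega) (by omega) ub1 (by omega) (by omega) uc1 (by omega)
    (by omega)
  have q4 := padj_quad hI hT1 hX1 hY1 (hG1 0 (by simp)) (hG1 I.N (by simp)) (hG1 d.y (by simp))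
    (hG1 d.i (by simp)) m1 lb lb' (by omega) (by omega) ub2 (by omega) (by omega) uc2 (by omega)
    (by omega)
  have q5 := padj_quad hI hT1 hX1 hY1 (hG1 0 (by simp)) (hG1 I.N (by simp)) (hG1 d.x (by simp))
    (hG1 I.N (by simp)) m1 lb lb' (by omega) (by omega) ub4 (by omega) (by omega) uc3 (by omega)
    (by omega)
  have q6 := padj_quad hI hT2 hX2 hY2 (hG2 0 (by simp)) (hG2 I.N (by simp)) (hG2 0 (by simp))
    (hG2 d.y (by simp)) m2 lc lc' (by omega) (by omega) uc1 (by omega) (by omega) ud1 (by omega)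
    (by omega)
  have q7 := padj_quad hI hT2 hX2 hY2 (hG2 0 (by simp)) (hG2 I.N (by simp)) (hG2 d.v (by simp))
    (hG2 I.N (by simp)) m2 lc lc' (by omega) (by omega) uc3 (by omega) (by omega) ud2 (by omega)
    (by omega)
  intro R hR e he
  simp only [OpD.flats, List.drop_succ_cons, List.drop_zero, List.mem_cons, List.not_mem_nil,
    or_false] at hR
  rcases hR with rfl | rfl | rfl | rfl | rfl | rfl | rfl <;>
    simp only [cycPairs, List.tail_cons, List.take_succ_cons, List.take_zero, List.cons_append,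
      List.nil_append, List.zip_cons_cons, List.zip_nil_right, List.mem_cons, List.not_mem_nil,
      or_false] at he <;>
    rcases he with rfl | rfl | rfl | rfl
  · exact q1.2.2.1.1
  · exact q1.2.2.2.2
  · exact q1.2.1.2
  · exact q1.1.1
  · exact q2.2.1.1
  · exact q2.2.2.2.1
  · exact q2.2.2.1.2
  · exact q2.1.2
  · exact q3.2.2.1.1
  · exact q3.2.2.2.2
  · exact q3.2.1.2
  · exact q3.1.1
  · exact q4.2.1.1
  · exact q4.2.2.2.1
  · exact q4.2.2.1.2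
  · exact q4.1.2
  · exact q5.2.1.1
  · exact q5.2.2.2.1
  · exact q5.2.2.1.2
  · exact q5.1.2
  · exact q6.2.1.1
  · exact q6.2.2.2.1
  · exact q6.2.2.1.2
  · exact q6.1.2
  · exact q7.2.2.1.1
  · exact q7.2.2.2.2
  · exact q7.2.1.2
  · exact q7.1.1

end Pool.Agent.Helper77.G4
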